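import Pool.Agent.Q234.KT.Stm2
import Pool.Agent.Q277.KT.JP

/-! Project KT (helper234), second part: JPartG (helper121), adapted from `Pool/Agent/Q277/KT/JP.lean`. -/

set_option autoImplicit false

open scoped BigOperators
open Finset Pool.Agent.Q234.KT

namespace Pool.Agent.Q121.KT.J2

open Pool.Agent.Q277.KT.JP

/-- the first sum -/
theorem first {V : Type} [Fintype V] [DecidableEq V] {J : Type} [Fintype J]
    (h1 : WalshS) (h2 : AlgS) (h3 : ExpG) {t : Finset V → ℕ} (ht : IsSize t) {r : ℝ}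
    (hr : 1 ≤ r) {b m : ℕ} {A B : J → Finset V} {w : J → (V → Fin 2) → ℂ} {ω : ℝ} (hω : 0 ≤ ω)
    (hp : IsPert b m t A B w ω) {δ η : ℝ} (hδ : δ ≤ 1) {g g' : Finset V → ℂ}
    (hg : ∀ x, nb r t x g ≤ δ) (hg' : ∀ x, nb r t x g' ≤ δ)
    (hd : ∀ x, nb r t x (fun X => g X - g' X) ≤ η) (x : V) :
    ∑ j, nx r t (B j) x (fun σ => w j σ * (Complex.exp (-2 * Gp g (A j) σ) -
        Complex.exp (-2 * Gp g' (A j) σ))) ≤
      2 ^ b * r ^ b * Real.exp (2 * (r ^ b * b)) *
        (2 * m * r ^ b * b + 2 * r ^ b * m + 8 * (r ^ b) ^ 2 * b * m) * ω * η := by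
  have hr0 : 0 ≤ r := by linarith
  have hη0 : 0 ≤ η := (nb_nonneg hr t x _).trans (hd x)
  have hδ0 : 0 ≤ δ := (nb_nonneg hr t x _).trans (hg x)
  set R : ℝ := r ^ b with hR
  have hR1 : 1 ≤ R := one_le_pow₀ hr
  set E : ℝ := Real.exp (2 * (R * b)) with hE
  have hE0 : 0 ≤ E := (Real.exp_pos _).le
  set W : ℝ := 2 ^ b * ω * R with hW
  have hW0 : 0 ≤ W := by positivity
  have n2 : ‖(-2 : ℂ)‖ = 2 := by simp
  have hRb : 0 ≤ R * b := by positivity
  have hRbδ : R * b * δ ≤ R * b := by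
    calc R * b * δ ≤ R * b * 1 := mul_le_mul_of_nonneg_left hδ hRb
      _ = R * b := mul_one _
  -- the bound for one index
  have key : ∀ j, nx r t (B j) x (fun σ => w j σ * (Complex.exp (-2 * Gp g (A j) σ) -
        Complex.exp (-2 * Gp g' (A j) σ))) ≤
      nx r t (B j) x (w j) * (2 * E * (R * b * η)) +
        W * (2 * E * nx r t (B j) x (Gp (fun X => g X - g' X) (A j)) +
          4 * E * (R * b * η) * (nx r t (B j) x (Gp g (A j)) + nx r t (B j) x (Gp g' (A j)))) := by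
    intro j
    have a1 := nm_Gp h1 ht hr g (hp.sub j) (hp.ne j) (hp.size j) hg
    have a2 := nm_Gp h1 ht hr g' (hp.sub j) (hp.ne j) (hp.size j) hg'
    have a3 := nm_Gp h1 ht hr (fun X => g X - g' X) (hp.sub j) (hp.ne j) (hp.size j) hd
    rw [← hR] at a1 a2 a3
    have e1 : nm r t (B j) (fun σ => -2 * Gp g (A j) σ) ≤ 2 * (R * b) := by
      rw [nm_mul, n2]
      linarith
    have e2 : nm r t (B j) (fun σ => -2 * Gp g' (A j) σ) ≤ 2 * (R * b) := by
      rw [nm_mul, n2]
      linarith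
    have ed : (fun σ => -2 * Gp g (A j) σ - -2 * Gp g' (A j) σ) =
        fun σ => -2 * Gp (fun X => g X - g' X) (A j) σ := by
      funext σ
      rw [Gp_sub]
      ring
    obtain ⟨b1, b2⟩ := h3 V t r (B j) ht hr (hp.ne j) (fun σ => -2 * Gp g (A j) σ)
      (fun σ => -2 * Gp g' (A j) σ) (2 * (R * b)) e1 e2
    have b3 := b2 x
    rw [ed, nm_mul, n2, ← hE] at b1
    rw [ed, nm_mul, n2, nx_mul, nx_mul, nx_mul, n2, ← hE] at b3
    have c1 := (h2 V t r (B j) ht hr (hp.ne j) (w j) (fun σ => Complex.exp (-2 * Gp g (A j) σ) -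
      Complex.exp (-2 * Gp g' (A j) σ))).2 x
    have c2 : nm r t (B j) (w j) ≤ W := nm_w ht hr (hp.size j) hω (hp.bd j) (hp.supp j)
    have p1 := nx_nonneg hr t (B j) x (w j)
    have p2 := nx_nonneg hr t (B j) x (Gp g (A j))
    have p3 := nx_nonneg hr t (B j) x (Gp g' (A j))
    have p4 := nx_nonneg hr t (B j) x (Gp (fun X => g X - g' X) (A j))
    have p5 := nx_nonneg hr t (B j) x (fun σ => Complex.exp (-2 * Gp g (A j) σ) -
      Complex.exp (-2 * Gp g' (A j) σ))
    have p6 := nm_nonneg hr t (B j) (w j)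
    have p7 : 0 ≤ R * b * η := by positivity
    set Nd := nm r t (B j) (Gp (fun X => g X - g' X) (A j)) with hNd
    have d0 : E * (2 * Nd) ≤ E * (2 * (R * b * η)) :=
      mul_le_mul_of_nonneg_left (by linarith) hE0
    have d1 : nm r t (B j) (fun σ => Complex.exp (-2 * Gp g (A j) σ) -
        Complex.exp (-2 * Gp g' (A j) σ)) ≤ 2 * E * (R * b * η) := by
      refine b1.trans (d0.trans (le_of_eq ?_))
      ring
    have d2 : nx r t (B j) x (fun σ => Complex.exp (-2 * Gp g (A j) σ) -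
        Complex.exp (-2 * Gp g' (A j) σ)) ≤
        2 * E * nx r t (B j) x (Gp (fun X => g X - g' X) (A j)) +
          4 * E * (R * b * η) * (nx r t (B j) x (Gp g (A j)) + nx r t (B j) x (Gp g' (A j))) := by
      refine b3.trans ?_
      have h4 : E * (2 * Nd) * (2 * nx r t (B j) x (Gp g (A j)) + 2 * nx r t (B j) x (Gp g' (A j))) ≤
          E * (2 * (R * b * η)) *
            (2 * nx r t (B j) x (Gp g (A j)) + 2 * nx r t (B j) x (Gp g' (A j))) :=
        mul_le_mul_of_nonneg_right d0 (by linarith)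
      refine (add_le_add_right h4 _).trans (le_of_eq ?_)
      ring
    refine c1.trans (add_le_add (mul_le_mul_of_nonneg_left d1 p1) ?_)
    exact mul_le_mul c2 d2 p5 hW0
  refine (sum_le_sum fun j _ => key j).trans ?_
  rw [sum_add_distrib, ← sum_mul, ← mul_sum, sum_add_distrib, ← mul_sum, ← mul_sum,
    sum_add_distrib]
  have s1 := sum_nx_w ht hr hω hp x
  have s2 := sum_nx_Gp h1 ht hr (fun X => g X - g' X) hp.sub hp.size hp.mult x (hd x)
  have s3 := sum_nx_Gp h1 ht hr g hp.sub hp.size hp.mult x (hg x)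
  have s4 := sum_nx_Gp h1 ht hr g' hp.sub hp.size hp.mult x (hg' x)
  rw [← hR] at s1 s2 s3 s4
  rw [← hW] at s1
  have p7 : 0 ≤ R * b * η := by positivity
  have q1 : (∑ j, nx r t (B j) x (w j)) * (2 * E * (R * b * η)) ≤ (m * W) * (2 * E * (R * b * η)) :=
    mul_le_mul_of_nonneg_right s1 (by positivity)
  have q2 : 4 * E * (R * b * η) * (∑ j, nx r t (B j) x (Gp g (A j)) +
      ∑ j, nx r t (B j) x (Gp g' (A j))) ≤ 4 * E * (R * b * η) * (R * m * δ + R * m * δ) :=
    mul_le_mul_of_nonneg_left (add_le_add s3 s4) (by positivity)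
  have q3 : 4 * E * (R * b * η) * (R * m * δ + R * m * δ) ≤ 4 * E * (R * b * η) * (2 * (R * m)) := by
    refine mul_le_mul_of_nonneg_left ?_ (by positivity)
    have h5 : R * m * δ ≤ R * m * 1 := mul_le_mul_of_nonneg_left hδ (by positivity)
    linarith
  have q5 : 2 * E * ∑ j, nx r t (B j) x (Gp (fun X => g X - g' X) (A j)) ≤ 2 * E * (R * m * η) :=
    mul_le_mul_of_nonneg_left s2 (by positivity)
  have q4 : W * (2 * E * ∑ j, nx r t (B j) x (Gp (fun X => g X - g' X) (A j)) +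
      4 * E * (R * b * η) * (∑ j, nx r t (B j) x (Gp g (A j)) +
        ∑ j, nx r t (B j) x (Gp g' (A j)))) ≤
      W * (2 * E * (R * m * η) + 4 * E * (R * b * η) * (2 * (R * m))) :=
    mul_le_mul_of_nonneg_left (by linarith) hW0
  refine (add_le_add q1 q4).trans (le_of_eq ?_)
  rw [hW]
  ring

theorem main (h1 : WalshS) (h2 : AlgS) (h3 : ExpG) : JPartG := by
  intro b m r hr
  have hr0 : 0 < r := by linarith
  set R : ℝ := r ^ b with hR
  have hR1 : 1 ≤ R := one_le_pow₀ hr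
  obtain ⟨K₁, hK₁⟩ : ∃ K₁ : ℝ, K₁ = 2 ^ b * R * Real.exp (2 * (R * b)) *
        (2 * m * R * b + 2 * R * m + 8 * R ^ 2 * b * m) := ⟨_, rfl⟩
  have hK₁0 : 0 ≤ K₁ := by
    rw [hK₁]
    positivity
  refine ⟨K₁ + m * (2 ^ b * R) + 1, by positivity, ?_⟩
  intro V _ _ J _ t A B w ω δ η ht hω hp hδ g g' hg hg' hd x
  have hη0 : 0 ≤ η := (nb_nonneg hr t x _).trans (hd x)
  have hδ0 : 0 ≤ δ := (nb_nonneg hr t x _).trans (hg x)
  have f1 := first h1 h2 h3 ht hr hω hp hδ hg hg' hd x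
  rw [← hR, ← hK₁] at f1
  have hmR : 0 ≤ (m : ℝ) * (2 ^ b * R) + 1 := by positivity
  constructor
  · refine f1.trans ?_
    have h6 : 0 ≤ (m * (2 ^ b * R) + 1) * (ω * η) := by positivity
    linarith
  · have hz : ∀ x, nb r t x (fun _ : Finset V => (0 : ℂ)) ≤ δ := by
      intro y
      unfold nb
      rw [sum_eq_zero]
      · exact hδ0
      · intro X _
        simp
    have hgd : ∀ x, nb r t x (fun X => g X - (fun _ : Finset V => (0 : ℂ)) X) ≤ δ := by
      intro y
      simpa using hg y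
    have f2 := first h1 h2 h3 ht hr hω hp hδ hg hz hgd x
    rw [← hR, ← hK₁] at f2
    have f3 := sum_nx_w ht hr hω hp x
    rw [← hR] at f3
    have f4 : ∑ j, nx r t (B j) x (fun σ => w j σ * Complex.exp (-2 * Gp g (A j) σ)) ≤
        ∑ j, (nx r t (B j) x (fun σ => w j σ * (Complex.exp (-2 * Gp g (A j) σ) -
          Complex.exp (-2 * Gp (fun _ => 0) (A j) σ))) + nx r t (B j) x (w j)) := by
      refine sum_le_sum fun j _ => ?_
      have e : (fun σ => w j σ * Complex.exp (-2 * Gp g (A j) σ)) =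
          fun σ => w j σ * (Complex.exp (-2 * Gp g (A j) σ) -
            Complex.exp (-2 * Gp (fun _ => 0) (A j) σ)) + w j σ := by
        funext σ
        rw [Gp_zero]
        simp
        ring
      rw [e]
      exact nx_add hr t (B j) x _ _
    rw [sum_add_distrib] at f4
    refine f4.trans ((add_le_add f2 f3).trans ?_)
    have h7 : K₁ * ω * δ ≤ K₁ * ω * 1 := mul_le_mul_of_nonneg_left hδ (by positivity)
    linarith

end Pool.Agent.Q121.KT.J2
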