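import Pool.Agent.Q80.KT.Stm

/-!
# Project KT, job VAR: second moment over components
-/

set_option autoImplicit false

open Finset MeasureTheory Filter Topology
open scoped Classical ENNReal NNReal

namespace Q121.KT.VAR

open Pool.Agent.Q80.KT Pool.Agent.Q287.SR

theorem ind_nonneg (P : Prop) : 0 ≤ ind P := by
  unfold ind
  split_ifs <;> norm_num

theorem ind_le (P : Prop) : ind P ≤ 1 := by
  unfold ind
  split_ifs <;> norm_num

theorem tau_nonneg {n : ℕ} {p : ℝ} (h0 : 0 ≤ p) (h1 : p ≤ 1) : 0 ≤ tau n p := by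
  unfold tau Pr
  split_ifs
  · exact Ex_nonneg h0 h1 (fun G => ind_nonneg _)
  · exact le_rfl

theorem rp43 {x : ℝ} (hx : 0 < x) : x ^ ((4 : ℝ) / 3) = x * x ^ ((1 : ℝ) / 3) := by
  have h := Real.rpow_add hx 1 ((1 : ℝ) / 3)
  rw [Real.rpow_one] at h
  rw [← h]
  norm_num

theorem npN (lam : ℝ) : Tendsto (fun n : ℕ => (n : ℝ) * pN lam n) atTop (𝓝 1) := by
  have h1 : Tendsto (fun n : ℕ => ((n : ℝ)) ^ (-((1 : ℝ) / 3))) atTop (𝓝 0) :=
    (tendsto_rpow_neg_atTop (by norm_num)).comp tendsto_natCast_atTop_atTop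
  have h2 : Tendsto (fun n : ℕ => 1 + lam * ((n : ℝ)) ^ (-((1 : ℝ) / 3))) atTop (𝓝 1) := by
    have := (h1.const_mul lam).const_add 1
    simpa using this
  refine h2.congr' ?_
  filter_upwards [eventually_ge_atTop 1] with n hn
  have hn0 : (0 : ℝ) < n := by exact_mod_cast hn
  have hp : 0 < (n : ℝ) ^ ((1 : ℝ) / 3) := Real.rpow_pos_of_pos hn0 _
  unfold pN
  rw [rp43 hn0, Real.rpow_neg hn0.le]
  field_simp

theorem t_VAR (h1 : S_SQ) (h2 : S_UP) (h3 : S_LOW) (h4 : S_KLIM) : S_VAR := by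
  intro lam k F u r hr ε hε
  have hnp := npN lam
  have hp01 : ∀ᶠ n : ℕ in atTop, 0 ≤ pN lam n ∧ pN lam n < 1 := by
    have e1 := hnp.eventually (lt_mem_nhds (show (0 : ℝ) < 1 by norm_num))
    have e2 := hnp.eventually (gt_mem_nhds (show (1 : ℝ) < 2 by norm_num))
    filter_upwards [e1, e2, eventually_ge_atTop 2] with n a1 a2 a3
    have hn2 : (2 : ℝ) ≤ n := by exact_mod_cast a3
    have hn0 : (0 : ℝ) < n := by linarith
    refine ⟨?_, ?_⟩
    · by_contra h
      push Not at h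
      nlinarith
    · by_contra h
      push Not at h
      nlinarith
  obtain ⟨C, hC, hup⟩ := h2 lam
  obtain ⟨K, hK⟩ : ∃ K : ℝ, K = |Kval F u r| + 1 := ⟨_, rfl⟩
  have ha : ∀ᶠ n : ℕ in atTop, |aN F u r n (pN lam n)| ≤ K := by
    have e1 := (h4 k F u r (pN lam) hr hnp).abs.eventually
      (gt_mem_nhds (show |Kval F u r| < K by linarith))
    exact e1.mono (fun n h => h.le)
  have hsq := h1 k F u r (pN lam) hr hp01 hnp (h3 lam) (ε / (2 * C)) (by positivity)
  have hbig : ∀ᶠ n : ℕ in atTop, (1 + K) ^ 2 / (ε / 2) ≤ (n : ℝ) ^ ((1 : ℝ) / 3) :=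
    ((tendsto_rpow_atTop (by norm_num)).comp tendsto_natCast_atTop_atTop).eventually_ge_atTop _
  filter_upwards [hp01, hup, ha, hsq, hbig, eventually_ge_atTop 1] with n hp hupn han hsqn hbn hn1
  have hn0 : (0 : ℝ) < n := by exact_mod_cast hn1
  obtain ⟨hp0, hp1⟩ := hp
  have hτ : 0 ≤ tau n (pN lam n) := tau_nonneg hp0 hp1.le
  obtain ⟨a, hadef⟩ : ∃ a : ℝ, a = aN F u r n (pN lam n) := ⟨_, rfl⟩
  rw [← hadef] at han
  simp only [← hadef] at hsqn ⊢
  rw [Ex_sum]
  have hterm : ∀ v w : Fin n, Ex n (pN lam n) (fun G => ind (G.Reachable v w) *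
      ((ind (BallIso F u G v r) - a) * (ind (BallIso F u G w r) - a))) ≤
      (if v = w then (1 + K) ^ 2 else 0) + ε / (2 * C) * tau n (pN lam n) := by
    intro v w
    have hpos : 0 ≤ ε / (2 * C) * tau n (pN lam n) := by positivity
    by_cases hvw : v = w
    · subst hvw
      rw [if_pos rfl]
      have e1 : Ex n (pN lam n) (fun G => ind (G.Reachable v v) *
          ((ind (BallIso F u G v r) - a) * (ind (BallIso F u G v r) - a))) ≤
          Ex n (pN lam n) (fun _ => (1 + K) ^ 2) := by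
        refine Ex_mono hp0 hp1.le (fun G => ?_)
        have b1 := ind_nonneg (G.Reachable v v)
        have b2 := ind_le (G.Reachable v v)
        have b3 := ind_nonneg (BallIso F u G v r)
        have b4 := ind_le (BallIso F u G v r)
        obtain ⟨c1, c2⟩ := abs_le.1 han
        have b5 : (ind (BallIso F u G v r) - a) * (ind (BallIso F u G v r) - a) ≤ (1 + K) ^ 2 := by
          nlinarith
        have b6 : 0 ≤ (ind (BallIso F u G v r) - a) * (ind (BallIso F u G v r) - a) :=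
          mul_self_nonneg _
        calc _ ≤ 1 * ((ind (BallIso F u G v r) - a) * (ind (BallIso F u G v r) - a)) :=
              mul_le_mul_of_nonneg_right b2 b6
          _ ≤ (1 + K) ^ 2 := by rw [one_mul]; exact b5
      rw [Ex_const] at e1
      linarith
    · rw [if_neg hvw, zero_add]
      exact (le_abs_self _).trans (hsqn v w hvw)
  have hsum : ∑ v : Fin n, Ex n (pN lam n) (fun G => ∑ w : Fin n, ind (G.Reachable v w) *
      ((ind (BallIso F u G v r) - a) * (ind (BallIso F u G w r) - a))) ≤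
      ∑ v : Fin n, ∑ w : Fin n,
        ((if v = w then (1 + K) ^ 2 else 0) + ε / (2 * C) * tau n (pN lam n)) := by
    refine Finset.sum_le_sum (fun v _ => ?_)
    rw [Ex_sum]
    exact Finset.sum_le_sum (fun w _ => hterm v w)
  have hval : ∑ v : Fin n, ∑ w : Fin n,
        ((if v = w then (1 + K) ^ 2 else 0) + ε / (2 * C) * tau n (pN lam n)) =
      n * (1 + K) ^ 2 + n * (n * (ε / (2 * C) * tau n (pN lam n))) := by
    simp [Finset.sum_add_distrib, Finset.sum_const, Finset.card_univ]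
  refine hsum.trans ?_
  rw [hval, rp43 hn0]
  have hx : 0 < (n : ℝ) ^ ((1 : ℝ) / 3) := Real.rpow_pos_of_pos hn0 _
  have f1 : (1 + K) ^ 2 ≤ ε / 2 * (n : ℝ) ^ ((1 : ℝ) / 3) := by
    rw [div_le_iff₀ (by positivity)] at hbn
    linarith
  have f2 : n * (ε / (2 * C) * tau n (pN lam n)) ≤ ε / 2 * (n : ℝ) ^ ((1 : ℝ) / 3) := by
    have e1 : n * (ε / (2 * C) * tau n (pN lam n)) = ε / (2 * C) * (n * tau n (pN lam n)) := by
      ring
    have e2 : ε / 2 * (n : ℝ) ^ ((1 : ℝ) / 3) = ε / (2 * C) * (C * (n : ℝ) ^ ((1 : ℝ) / 3)) := by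
      field_simp
    rw [e1, e2]
    exact mul_le_mul_of_nonneg_left hupn (by positivity)
  calc (n : ℝ) * (1 + K) ^ 2 + n * (n * (ε / (2 * C) * tau n (pN lam n)))
      ≤ n * (ε / 2 * (n : ℝ) ^ ((1 : ℝ) / 3)) + n * (ε / 2 * (n : ℝ) ^ ((1 : ℝ) / 3)) :=
        add_le_add (mul_le_mul_of_nonneg_left f1 hn0.le) (mul_le_mul_of_nonneg_left f2 hn0.le)
    _ = ε * (n * (n : ℝ) ^ ((1 : ℝ) / 3)) := by ring

end Q121.KT.VAR
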